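import Pool.Agent.Y175.SG.Plane

set_option autoImplicit false

/-!
# Universal disposition forces density at least the continuum: one embedding, three dimensions,
real and complex scalars, and larger classes of spaces

* If one isometric embedding `E → X` extends to the superspaces of `E` of codimension at most one,
  then the density of `X` is at least the number of the norming sets `{z | ‖φ z‖ = ‖z‖}` of the
  functionals `φ` of norm at most one on `E`.
* So a Banach space of universal disposition for the spaces of dimension at most three, in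
  particular every strong Gurarii space, real or complex, has density at least the continuum; and
  a Banach space of universal disposition for the spaces of density at most `κ` (`κ` infinite) has
  density at least `2 ^ κ`.
* If the continuum hypothesis fails, no strong Gurarii space has density `ℵ₁`: this is the answer
  to the question of MP_47ceec_an (starting result `DensityContinuum`, whose construction for the
  Euclidean plane is generalised here).
-/

open Set Cardinal

universe u w

namespace Pool.Agent.Results.MP_47ceec_an.UniversalDisposition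

/-- The density of a topological space: the least cardinality of a dense subset. -/
noncomputable def density (X : Type u) [TopologicalSpace X] : Cardinal.{u} :=
  sInf {κ : Cardinal.{u} | ∃ D : Set X, Dense D ∧ #D = κ}

/-- The norming sets of `E`: the sets `{z | ‖φ z‖ = ‖z‖}`, `φ` a linear functional of norm at most
one. -/
def NormingSets (𝕜 : Type) [RCLike 𝕜] (E : Type w) [NormedAddCommGroup E] [NormedSpace 𝕜 E] :
    Set (Set E) :=
  {S | ∃ φ : E →ₗ[𝕜] 𝕜, (∀ z, ‖φ z‖ ≤ ‖z‖) ∧ S = {z | ‖φ z‖ = ‖z‖}}

/-- `F` is generated by at most `κ` vectors: the linear span of some set of at most `κ` vectors is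
dense. (For a natural number `κ`: the dimension is at most `κ`; for an infinite cardinal `κ`: the
density is at most `κ`.) -/
def Generated (𝕜 : Type) [RCLike 𝕜] (F : Type w) [NormedAddCommGroup F] [NormedSpace 𝕜 F]
    (κ : Cardinal.{w}) : Prop :=
  ∃ s : Set F, #s ≤ κ ∧ Dense (Submodule.span 𝕜 s : Set F)

/-- `X` is of universal disposition for the Banach spaces generated by at most `κ` vectors: every
isometric embedding into `X` of a closed subspace `E` of such a space `F` extends to an isometric
embedding of `F`. -/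
def UDisp (𝕜 : Type) [RCLike 𝕜] (κ : Cardinal.{w}) (X : Type u)
    [NormedAddCommGroup X] [NormedSpace 𝕜 X] : Prop :=
  ∀ (F : Type w) [NormedAddCommGroup F] [NormedSpace 𝕜 F] [CompleteSpace F], Generated 𝕜 F κ →
    ∀ (E : Submodule 𝕜 F) (_ : IsClosed (E : Set F)) (f : E →ₗᵢ[𝕜] X),
      ∃ g : F →ₗᵢ[𝕜] X, ∀ x : E, g (x : F) = f x

/-- A normed space `X` over `𝕜` is a strong Gurarii space: for every finite dimensional normed
space `F`, every linear subspace `E` of `F` and every isometric linear embedding `f : E → X` there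
is an isometric linear embedding `g : F → X` which extends `f`. -/
def StrongGurarii (𝕜 : Type) [RCLike 𝕜] (X : Type u) [NormedAddCommGroup X]
    [NormedSpace 𝕜 X] : Prop :=
  ∀ (F : Type) [NormedAddCommGroup F] [NormedSpace 𝕜 F] [FiniteDimensional 𝕜 F]
    (E : Submodule 𝕜 F) (f : E →ₗᵢ[𝕜] X), ∃ g : F →ₗᵢ[𝕜] X, ∀ x : E, g (x : F) = f x

open Pool.Agent.Y175.SG

section

variable {𝕜 : Type} [RCLike 𝕜]

theorem normingSets_eq (E : Type w) [NormedAddCommGroup E] [NormedSpace 𝕜 E] :
    NormingSets 𝕜 E = Set.range (N : Fn 𝕜 E → Set E) := by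
  ext S
  constructor
  · rintro ⟨φ, h1, rfl⟩
    exact ⟨⟨φ, h1⟩, rfl⟩
  · rintro ⟨p, rfl⟩
    exact ⟨p.φ, p.le, rfl⟩

theorem le_density {X : Type u} [TopologicalSpace X] (c : Cardinal.{u})
    (h : ∀ D : Set X, Dense D → c ≤ #D) : c ≤ density X := by
  apply le_csInf
  · exact ⟨_, Set.univ, dense_univ, rfl⟩
  · rintro κ ⟨D, hD, rfl⟩
    exact h D hD

theorem exists_density (X : Type u) [TopologicalSpace X] :
    ∃ D : Set X, Dense D ∧ #D = density X :=
  csInf_mem (s := {κ : Cardinal.{u} | ∃ D : Set X, Dense D ∧ #D = κ})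
    ⟨_, Set.univ, dense_univ, rfl⟩

theorem generated_ext {E : Type w} [NormedAddCommGroup E] [NormedSpace 𝕜 E] (κ : Cardinal.{w})
    (h : Generated 𝕜 E κ) (p : Fn 𝕜 E) : Generated 𝕜 (Ext p) (κ + 1) := by
  obtain ⟨s, hs1, hs2⟩ := h
  refine ⟨(J p) '' s ∪ {e3 p}, ?_, ?_⟩
  · refine (Cardinal.mk_union_le _ _).trans ?_
    rw [Cardinal.mk_singleton]
    exact add_le_add (Cardinal.mk_image_le.trans hs1) le_rfl
  · intro x
    rw [Metric.mem_closure_iff]
    intro ε hε
    obtain ⟨y, hy, hy2⟩ := Metric.mem_closure_iff.1 (hs2 x.1) ε hε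
    refine ⟨J p y + x.2 • e3 p, ?_, ?_⟩
    · refine Submodule.add_mem _ ?_ (Submodule.smul_mem _ _
        (Submodule.subset_span (Or.inr rfl)))
      have h1 : J p y ∈ Submodule.map (J p).toLinearMap (Submodule.span 𝕜 s) := ⟨y, hy, rfl⟩
      rw [Submodule.map_span] at h1
      exact Submodule.span_mono Set.subset_union_left h1
    · have h1 : x - (J p y + x.2 • e3 p) = J p (x.1 - y) := by
        rw [map_sub]
        nth_rewrite 1 [decomp p x]
        abel
      rw [dist_eq_norm, h1, LinearIsometry.norm_map, ← dist_eq_norm]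
      exact hy2

/-- universal disposition gives an isometric copy of `E` which extends to the spaces `Ext p` -/
theorem UDisp.spec {κ : Cardinal.{w}} {X : Type u} [NormedAddCommGroup X]
    [NormedSpace 𝕜 X] (hX : UDisp 𝕜 κ X) {E : Type w} [NormedAddCommGroup E]
    [NormedSpace 𝕜 E] [CompleteSpace E] (κ₀ : Cardinal.{w}) (hE : Generated 𝕜 E κ₀)
    (hκ : κ₀ + 1 ≤ κ) :
    ∃ f : E →ₗᵢ[𝕜] X, ∀ p : Fn 𝕜 E, ∃ g : Ext p →ₗᵢ[𝕜] X, ∀ x, g (J p x) = f x := by
  have hE' : Generated 𝕜 E κ := by
    obtain ⟨s, hs1, hs2⟩ := hE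
    exact ⟨s, hs1.trans (le_trans (self_le_add_right _ _) hκ), hs2⟩
  obtain ⟨f, -⟩ := hX E hE' ⊥ (by simp)
    { toLinearMap := 0
      norm_map' := by
        intro x
        have : x = 0 := Subsingleton.elim _ _
        simp [this] }
  refine ⟨f, fun p => ?_⟩
  have hc : CompleteSpace (Ext p) := complete p
  have hG : Generated 𝕜 (Ext p) κ := by
    obtain ⟨s, hs1, hs2⟩ := generated_ext κ₀ hE p
    exact ⟨s, hs1.trans hκ, hs2⟩
  obtain ⟨g, hg⟩ := hX (Ext p) hG (LinearMap.range (J p).toLinearMap) (by
      have := (J p).isometry.isClosedEmbedding.isClosed_range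
      exact this)
    (f.comp (J p).equivRange.symm.toLinearIsometry)
  refine ⟨g, fun x => ?_⟩
  have h := hg ((J p).equivRange x)
  have h2 : (((J p).equivRange x : LinearMap.range (J p).toLinearMap) : Ext p) = J p x := rfl
  rw [h2] at h
  rw [h]
  change f ((J p).equivRange.symm ((J p).equivRange x)) = f x
  rw [LinearIsometryEquiv.symm_apply_apply]

theorem generated_plane : Generated 𝕜 (EuclideanSpace 𝕜 (Fin 2)) 2 := by
  refine ⟨Set.range (EuclideanSpace.basisFun (Fin 2) 𝕜), ?_, ?_⟩
  · refine Cardinal.mk_range_le.trans ?_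
    simp
  · have h := (EuclideanSpace.basisFun (Fin 2) 𝕜).toBasis.span_eq
    rw [OrthonormalBasis.coe_toBasis] at h
    rw [h]
    exact dense_univ

theorem continuum_le_of_extends {X : Type u} [NormedAddCommGroup X] [NormedSpace 𝕜 X]
    (f : EuclideanSpace 𝕜 (Fin 2) →ₗᵢ[𝕜] X)
    (hf : ∀ p : Fn 𝕜 (EuclideanSpace 𝕜 (Fin 2)), ∃ g : Ext p →ₗᵢ[𝕜] X, ∀ x, g (J p x) = f x) :
    Cardinal.continuum.{u} ≤ density X := by
  refine le_density _ fun D hD => ?_
  have h1 := norming_le f hf D hD
  have h2 := Cardinal.lift_le.{u}.2 (continuum_le_plane (𝕜 := 𝕜))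
  rw [Cardinal.lift_continuum] at h2
  have h3 := h2.trans h1
  simpa using h3

end

/-- **Universal disposition and density**, over `𝕜 = ℝ` or `ℂ`.

* If an isometric embedding `f : E → X` extends to every superspace of `E` of codimension at most
  one, then `E` has at most `density X` norming sets.
* Universal disposition for the spaces of dimension at most three implies density at least the
  continuum.
* Universal disposition for the Banach spaces generated by `κ` vectors, `κ` infinite, implies
  density at least `2 ^ κ`.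
* Every strong Gurarii space has density at least the continuum; so there is none of density `ℵ₁`
  unless the continuum hypothesis holds. -/
theorem result (𝕜 : Type) [RCLike 𝕜] :
    (∀ (E : Type w) [NormedAddCommGroup E] [NormedSpace 𝕜 E] (X : Type u) [NormedAddCommGroup X]
      [NormedSpace 𝕜 X] (f : E →ₗᵢ[𝕜] X),
      (∀ (F : Type w) [NormedAddCommGroup F] [NormedSpace 𝕜 F] (j : E →ₗᵢ[𝕜] F) (v : F),
        LinearMap.range j.toLinearMap ⊔ Submodule.span 𝕜 {v} = ⊤ →
          ∃ g : F →ₗᵢ[𝕜] X, ∀ x, g (j x) = f x) →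
      Cardinal.lift.{u} #(NormingSets 𝕜 E) ≤ Cardinal.lift.{w} (density X)) ∧
    (∀ (X : Type u) [NormedAddCommGroup X] [NormedSpace 𝕜 X],
      UDisp.{u, 0} 𝕜 3 X → Cardinal.continuum.{u} ≤ density X) ∧
    (∀ κ : Cardinal.{w}, ℵ₀ ≤ κ → ∀ (X : Type u) [NormedAddCommGroup X] [NormedSpace 𝕜 X],
      UDisp 𝕜 κ X →
        Cardinal.lift.{u} (2 ^ κ) ≤ Cardinal.lift.{w} (density X)) ∧
    (∀ (X : Type u) [NormedAddCommGroup X] [NormedSpace 𝕜 X],
      StrongGurarii 𝕜 X → Cardinal.continuum.{u} ≤ density X) ∧
    (Cardinal.aleph.{u} 1 < Cardinal.continuum.{u} →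
      ¬ ∃ (X : Type u) (_ : NormedAddCommGroup X) (_ : NormedSpace 𝕜 X) (_ : CompleteSpace X),
        StrongGurarii 𝕜 X ∧ density X = Cardinal.aleph.{u} 1) := by
  have hSG : ∀ (X : Type u) [NormedAddCommGroup X] [NormedSpace 𝕜 X],
      StrongGurarii 𝕜 X → Cardinal.continuum.{u} ≤ density X := by
    intro X _ _ hX
    obtain ⟨f, -⟩ := hX (EuclideanSpace 𝕜 (Fin 2)) ⊥
      { toLinearMap := 0
        norm_map' := by
          intro x
          have : x = 0 := Subsingleton.elim _ _
          simp [this] }
    refine continuum_le_of_extends f fun p => ?_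
    have hfd : FiniteDimensional 𝕜 (Ext p) :=
      inferInstanceAs (FiniteDimensional 𝕜 (EuclideanSpace 𝕜 (Fin 2) × 𝕜))
    obtain ⟨g, hg⟩ := hX (Ext p) (LinearMap.range (J p).toLinearMap)
      (f.comp (J p).equivRange.symm.toLinearIsometry)
    refine ⟨g, fun x => ?_⟩
    have h := hg ((J p).equivRange x)
    have h2 : (((J p).equivRange x : LinearMap.range (J p).toLinearMap) : Ext p) = J p x := rfl
    rw [h2] at h
    rw [h]
    change f ((J p).equivRange.symm ((J p).equivRange x)) = f x
    rw [LinearIsometryEquiv.symm_apply_apply]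
  refine ⟨?_, ?_, ?_, hSG, ?_⟩
  · intro E _ _ X _ _ f hf
    obtain ⟨D, hD, hD2⟩ := exists_density X
    rw [← hD2, normingSets_eq]
    exact norming_le f (fun p => hf (Ext p) (J p) (e3 p) (range_sup p)) D hD
  · intro X _ _ hX
    obtain ⟨f, hf⟩ := hX.spec 2 generated_plane (by norm_num)
    exact continuum_le_of_extends f hf
  · intro κ hκ X _ _ hX
    classical
    have hG : Generated 𝕜 (L1 𝕜 (Option κ.out)) κ := by
      refine ⟨_, ?_, l1_dense⟩
      refine Cardinal.mk_range_le.trans ?_
      rw [Cardinal.mk_option, Cardinal.mk_out, Cardinal.add_one_eq hκ]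
    obtain ⟨f, hf⟩ := hX.spec κ hG (by rw [Cardinal.add_one_eq hκ])
    obtain ⟨D, hD, hD2⟩ := exists_density X
    rw [← hD2]
    refine le_trans ?_ (norming_le f hf D hD)
    have := two_pow_le_l1 (𝕜 := 𝕜) κ.out
    rw [Cardinal.mk_out] at this
    exact Cardinal.lift_le.2 this
  · rintro h ⟨X, i1, i2, i3, hX, hd⟩
    exact absurd (hSG X hX) (by rw [hd]; exact not_le.2 h)

end Pool.Agent.Results.MP_47ceec_an.UniversalDisposition
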